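import Mathlib

set_option autoImplicit false

open Complex Metric Set Filter Topology InnerProductSpace Real

namespace Pool.Agent.H784777

/-- Subharmonic functions on an open set `U` of the plane, with values in `[-∞, ∞)` (realised in
`EReal`): upper semicontinuous on `U` and satisfying the sub-mean-value inequality on the boundary
of every closed disc contained in `U`. For an upper semicontinuous function bounded above on a
circle the circle mean is the infimum of the circle means of its continuous majorants, so the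
inequality is written with continuous majorants `φ`. -/
def SubharmonicOn (u : ℂ → EReal) (U : Set ℂ) : Prop :=
  (∀ z ∈ U, u z ≠ ⊤) ∧ UpperSemicontinuousOn u U ∧
    ∀ (c : ℂ) (r : ℝ), 0 < r → closedBall c r ⊆ U → ∀ φ : ℂ → ℝ, Continuous φ →
      (∀ z ∈ sphere c r, u z ≤ (φ z : EReal)) → u c ≤ ((circleAverage φ c r : ℝ) : EReal)

/-- The class `U[ρ]`: subharmonic functions `v` on the plane with `v 0 = 0` and
`v z ≤ σ |z| ^ ρ` for all `z`, for some `σ > 0`. -/
def IsU (ρ : ℝ) (v : ℂ → EReal) : Prop :=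
  SubharmonicOn v univ ∧ v 0 = 0 ∧ ∃ σ : ℝ, 0 < σ ∧ ∀ z, v z ≤ ((σ * ‖z‖ ^ ρ : ℝ) : EReal)

/-- Minimal elements of `U[ρ]`. -/
def IsMinimal (ρ : ℝ) (v : ℂ → EReal) : Prop :=
  IsU ρ v ∧ ∀ ε : ℝ, 0 < ε →
    ¬ ∃ w : ℂ → EReal, IsU ρ w ∧ ∀ z, w z ≤ v z - ((ε * ‖z‖ ^ ρ : ℝ) : EReal)

/-- `H(v)`: the largest open set on which `v` is harmonic. -/
def HarmSet (v : ℂ → EReal) : Set ℂ :=
  ⋃₀ {V : Set ℂ | IsOpen V ∧ ∃ g : ℂ → ℝ, HarmonicOnNhd g V ∧ ∀ z ∈ V, v z = ((g z : ℝ) : EReal)}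

/-- The set `{(x, y) : exp (x + i y) ∈ H(v)}`. Subsets of the cylinder `ℝ × (ℝ / 2πℤ)` are
represented by their preimages in the plane of `x + i y` (these are `2πi`-periodic). -/
def HatH (v : ℂ → EReal) : Set ℂ := {p : ℂ | Complex.exp p ∈ HarmSet v}

/-- `q` is a regular point of the boundary of `D` for the Dirichlet problem: there is a barrier
at `q`, i.e. a negative subharmonic function on the part of `D` in a neighbourhood `N` of `q`
which tends to zero at `q`. -/
def IsRegular (D : Set ℂ) (q : ℂ) : Prop :=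
  ∃ N : Set ℂ, IsOpen N ∧ q ∈ N ∧ ∃ b : ℂ → EReal, SubharmonicOn b (D ∩ N) ∧
    (∀ p ∈ D ∩ N, b p < 0) ∧ Tendsto b (𝓝[D ∩ N] q) (𝓝 0)

/-- `r` is a solution of problem (1) on `D` with parameter `lam`: it is `2π`-periodic in `y`,
bounded on `D`, satisfies `L_lam r = e^{-lam x} Δ (e^{lam x} r) = 0` in `D`, i.e.
`e^{lam x} r` is harmonic in `D`, and tends to zero at every regular boundary point. -/
structure IsSolution (lam : ℝ) (D : Set ℂ) (r : ℂ → ℝ) : Prop where
  periodic : ∀ p : ℂ, r (p + 2 * π * I) = r p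
  bounded : ∃ C : ℝ, ∀ p ∈ D, |r p| ≤ C
  eqn : HarmonicOnNhd (fun p : ℂ => Real.exp (lam * p.re) * r p) D
  boundary : ∀ q ∈ frontier D, IsRegular D q → Tendsto r (𝓝[D] q) (𝓝 0)

/-- `λ(D)`: the infimum of the `lam > 0` for which problem (1) on `D` has a nontrivial solution,
`+∞` if there are none. -/
noncomputable def lambdaSet (D : Set ℂ) : EReal :=
  sInf {l : EReal | ∃ lam : ℝ, 0 < lam ∧ l = (lam : EReal) ∧
    ∃ r : ℂ → ℝ, IsSolution lam D r ∧ ∃ p ∈ D, r p ≠ 0}

/-- `λ(v) = λ(Ĥ(v))`. -/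
noncomputable def lambdaFun (v : ℂ → EReal) : EReal := lambdaSet (HatH v)

/-- The function `(|z| ^ ρ - 1)⁺`. -/
noncomputable def bump (ρ : ℝ) (z : ℂ) : ℝ := max (‖z‖ ^ ρ - 1) 0

end Pool.Agent.H784777
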