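import Pool.Agent.H784777.Defs

set_option autoImplicit false

open Complex Metric Set Filter Topology InnerProductSpace Real

namespace Pool.Agent.H784777

theorem average_lt {f : ℂ → ℝ} {c : ℂ} {r M : ℝ} (hr : 0 < r)
    (hf : ContinuousOn f (sphere c r)) (hle : ∀ z ∈ sphere c r, f z ≤ M)
    (hlt : ∃ z ∈ sphere c r, f z < M) : circleAverage f c r < M := by
  have hmap : ∀ θ : ℝ, circleMap c r θ ∈ sphere c r := fun θ => circleMap_mem_sphere c hr.le θ
  have hc : Continuous (fun θ : ℝ => f (circleMap c r θ)) := by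
    have := hf.comp_continuous (continuous_circleMap c r) hmap
    exact this
  obtain ⟨z1, hz1, hz1'⟩ := hlt
  have him : z1 ∈ circleMap c r '' Ioc 0 (2 * π) := by
    rw [image_circleMap_Ioc]
    rwa [abs_of_pos hr]
  obtain ⟨θ, hθ, rfl⟩ := him
  have h := intervalIntegral.integral_lt_integral_of_continuousOn_of_le_of_exists_lt
    (f := fun θ : ℝ => f (circleMap c r θ)) (g := fun _ => M) (a := 0) (b := 2 * π)
    (by positivity) hc.continuousOn continuousOn_const (fun x _ => hle _ (hmap x))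
    ⟨θ, ⟨hθ.1.le, hθ.2⟩, hz1'⟩
  rw [circleAverage_def]
  rw [intervalIntegral.integral_const] at h
  simp only [sub_zero, smul_eq_mul] at h ⊢
  have h2 : (2 * π)⁻¹ * (∫ θ in (0:ℝ)..2 * π, f (circleMap c r θ)) < (2 * π)⁻¹ * (2 * π * M) :=
    mul_lt_mul_of_pos_left h (by positivity)
  have h3 : (2 * π)⁻¹ * (2 * π * M) = M := by
    field_simp
  linarith

theorem rpow_eq {ρ : ℝ} {z z0 : ℂ} (hz : z ≠ 0) (hz0 : z0 ≠ 0) :
    ‖z‖ ^ ρ = ‖z0‖ ^ ρ * Real.exp (ρ * (Real.log ‖z‖ - Real.log ‖z0‖)) := by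
  have h1 : 0 < ‖z‖ := norm_pos_iff.mpr hz
  have h2 : 0 < ‖z0‖ := norm_pos_iff.mpr hz0
  rw [Real.rpow_def_of_pos h1, Real.rpow_def_of_pos h2, ← Real.exp_add]
  congr 1
  ring

theorem support_le {ρ : ℝ} {z z0 : ℂ} (hz : z ≠ 0) (hz0 : z0 ≠ 0) :
    ‖z0‖ ^ ρ + ‖z0‖ ^ ρ * (ρ * (Real.log ‖z‖ - Real.log ‖z0‖)) ≤ ‖z‖ ^ ρ := by
  rw [rpow_eq (ρ := ρ) hz hz0]
  have h := Real.add_one_le_exp (ρ * (Real.log ‖z‖ - Real.log ‖z0‖))
  have h0 : 0 ≤ ‖z0‖ ^ ρ := by positivity
  nlinarith

theorem support_lt {ρ : ℝ} (hρ : 0 < ρ) {z z0 : ℂ} (hz : z ≠ 0) (hz0 : z0 ≠ 0)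
    (hne : ‖z‖ ≠ ‖z0‖) :
    ‖z0‖ ^ ρ + ‖z0‖ ^ ρ * (ρ * (Real.log ‖z‖ - Real.log ‖z0‖)) < ‖z‖ ^ ρ := by
  rw [rpow_eq (ρ := ρ) hz hz0]
  have h1 : 0 < ‖z‖ := norm_pos_iff.mpr hz
  have h2 : 0 < ‖z0‖ := norm_pos_iff.mpr hz0
  have hne2 : ρ * (Real.log ‖z‖ - Real.log ‖z0‖) ≠ 0 := by
    apply mul_ne_zero hρ.ne'
    intro h
    apply hne
    exact Real.log_injOn_pos h1 h2 (by linarith)
  have h := Real.add_one_lt_exp hne2
  have h0 : 0 < ‖z0‖ ^ ρ := Real.rpow_pos_of_pos h2 ρ
  nlinarith

theorem continuous_pow_norm {ρ : ℝ} (hρ : 0 < ρ) : Continuous (fun z : ℂ => ‖z‖ ^ ρ) :=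
  continuous_norm.rpow_const (fun _ => Or.inr hρ.le)

theorem circleAverage_log (c : ℂ) {r : ℝ} (hr : 0 < r) :
    circleAverage (fun z : ℂ => Real.log ‖z‖) c r = Real.log r + Real.posLog (r⁻¹ * ‖c‖) := by
  have := circleAverage_log_norm_sub_const_eq_log_radius_add_posLog (a := 0) (c := c) hr.ne'
  simpa using this

theorem circleIntegrable_log (c : ℂ) (r : ℝ) :
    CircleIntegrable (fun z : ℂ => Real.log ‖z‖) c r := by
  have := MeromorphicOn.circleIntegrable_log_norm (f := fun z : ℂ => z) (c := c) (R := r)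
    (fun _ _ => by fun_prop)
  exact this

theorem circleAverage_log_ge (c : ℂ) (hc : c ≠ 0) {r : ℝ} (hr : 0 < r) :
    Real.log ‖c‖ ≤ circleAverage (fun z : ℂ => Real.log ‖z‖) c r := by
  rw [circleAverage_log c hr]
  have h1 : 0 < ‖c‖ := norm_pos_iff.mpr hc
  have h2 : Real.log (r⁻¹ * ‖c‖) ≤ Real.posLog (r⁻¹ * ‖c‖) := le_max_right _ _
  rw [Real.log_mul (by positivity) h1.ne', Real.log_inv] at h2
  linarith

theorem circleAverage_affine_log (c : ℂ) (r : ℝ) (a b : ℝ) :
    circleAverage (fun z : ℂ => a + b * Real.log ‖z‖) c r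
      = a + b * circleAverage (fun z : ℂ => Real.log ‖z‖) c r := by
  have h1 := circleIntegrable_log c r
  have h2 : CircleIntegrable (fun z : ℂ => b * Real.log ‖z‖) c r := h1.const_mul b
  have h3 := circleAverage_fun_add (c := c) (R := r) (f₁ := fun _ : ℂ => a)
    (f₂ := fun z : ℂ => b * Real.log ‖z‖) (circleIntegrable_const a c r) h2
  rw [h3, circleAverage_const]
  have h4 := circleAverage_fun_smul (a := b) (f := fun z : ℂ => Real.log ‖z‖) (c := c) (R := r)
  simp only [smul_eq_mul] at h4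
  rw [h4]

theorem circleIntegrable_of_cont {f : ℂ → ℝ} (hf : Continuous f) (c : ℂ) (r : ℝ) :
    CircleIntegrable f c r := hf.continuousOn.circleIntegrable'

theorem pow_average_ne {ρ : ℝ} (hρ : 0 < ρ) (c : ℂ) (hc : c ≠ 0) {r : ℝ} (hr : 0 < r)
    (hne : ‖c‖ ≠ r) : ‖c‖ ^ ρ ≤ circleAverage (fun z : ℂ => ‖z‖ ^ ρ) c r := by
  have h1 : circleAverage (fun z : ℂ => (‖c‖ ^ ρ - ‖c‖ ^ ρ * ρ * Real.log ‖c‖)
      + (‖c‖ ^ ρ * ρ) * Real.log ‖z‖) c r ≤ circleAverage (fun z : ℂ => ‖z‖ ^ ρ) c r := by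
    apply circleAverage_mono
    · have h2 : CircleIntegrable (fun z : ℂ => (‖c‖ ^ ρ * ρ) * Real.log ‖z‖) c r :=
        (circleIntegrable_log c r).const_mul _
      exact (circleIntegrable_const _ c r).add h2
    · exact circleIntegrable_of_cont (continuous_pow_norm hρ) c r
    · intro z hz
      have hz0 : z ≠ 0 := by
        rintro rfl
        rw [abs_of_pos hr, mem_sphere_iff_norm] at hz
        simp at hz
        exact hne hz
      have := support_le (ρ := ρ) hz0 hc
      nlinarith [this]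
  rw [circleAverage_affine_log] at h1
  have h2 := circleAverage_log_ge c hc hr
  have h3 : 0 ≤ ‖c‖ ^ ρ * ρ := by positivity
  nlinarith [mul_le_mul_of_nonneg_left h2 h3]

theorem pow_average {ρ : ℝ} (hρ : 0 < ρ) (c : ℂ) {r : ℝ} (hr : 0 < r) :
    ‖c‖ ^ ρ ≤ circleAverage (fun z : ℂ => ‖z‖ ^ ρ) c r := by
  by_cases hc : c = 0
  · subst hc
    rw [norm_zero, Real.zero_rpow hρ.ne']
    exact circleAverage_nonneg_of_nonneg (fun z _ => by positivity)
  by_cases hne : ‖c‖ = r
  · have hcont : Continuous (fun s : ℝ => circleAverage (fun z : ℂ => ‖z‖ ^ ρ) c s) :=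
      (continuous_pow_norm hρ).circleAverage
    have ht : Tendsto (fun s : ℝ => circleAverage (fun z : ℂ => ‖z‖ ^ ρ) c s)
        (𝓝[>] r) (𝓝 (circleAverage (fun z : ℂ => ‖z‖ ^ ρ) c r)) :=
      (hcont.tendsto r).mono_left nhdsWithin_le_nhds
    refine ge_of_tendsto ht ?_
    filter_upwards [self_mem_nhdsWithin] with s hs
    have hs' : r < s := hs
    exact pow_average_ne hρ c hc (hr.trans hs') (by rw [hne]; exact hs'.ne)
  · exact pow_average_ne hρ c hc hr hne

theorem continuous_bump {ρ : ℝ} (hρ : 0 < ρ) : Continuous (bump ρ) := by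
  unfold bump
  exact ((continuous_pow_norm hρ).sub continuous_const).max continuous_const

theorem bump_average {ρ : ℝ} (hρ : 0 < ρ) (c : ℂ) {r : ℝ} (hr : 0 < r) :
    bump ρ c ≤ circleAverage (bump ρ) c r := by
  have h0 : 0 ≤ circleAverage (bump ρ) c r :=
    circleAverage_nonneg_of_nonneg (fun z _ => le_max_right _ _)
  have h1 : circleAverage (fun z : ℂ => ‖z‖ ^ ρ - 1) c r ≤ circleAverage (bump ρ) c r := by
    apply circleAverage_mono
    · exact circleIntegrable_of_cont ((continuous_pow_norm hρ).sub continuous_const) c r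
    · exact circleIntegrable_of_cont (continuous_bump hρ) c r
    · intro z _
      exact le_max_left _ _
  have h2 : circleAverage (fun z : ℂ => ‖z‖ ^ ρ - 1) c r
      = circleAverage (fun z : ℂ => ‖z‖ ^ ρ) c r - 1 := by
    rw [circleAverage_fun_sub (circleIntegrable_of_cont (continuous_pow_norm hρ) c r)
      (circleIntegrable_const 1 c r), circleAverage_const]
  have h3 := pow_average hρ c hr
  unfold bump
  apply max_le
  · have : ‖c‖ ^ ρ - 1 ≤ circleAverage (bump ρ) c r := by linarith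
    exact this
  · exact h0

theorem subharmonic_of_average {f : ℂ → ℝ} (hf : Continuous f)
    (h : ∀ (c : ℂ) (r : ℝ), 0 < r → f c ≤ circleAverage f c r) (U : Set ℂ) :
    SubharmonicOn (fun z => ((f z : ℝ) : EReal)) U := by
  refine ⟨fun z _ => EReal.coe_ne_top _, ?_, ?_⟩
  · exact (continuous_coe_real_ereal.comp hf).upperSemicontinuous.upperSemicontinuousOn _
  · intro c r hr _ φ hφ hle
    have h1 := h c r hr
    have h2 : circleAverage f c r ≤ circleAverage φ c r := by
      apply circleAverage_mono (circleIntegrable_of_cont hf c r) (circleIntegrable_of_cont hφ c r)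
      intro z hz
      rw [abs_of_pos hr] at hz
      exact EReal.coe_le_coe_iff.mp (hle z hz)
    exact EReal.coe_le_coe_iff.mpr (h1.trans h2)

theorem harm_average {g : ℂ → ℝ} (hg : HarmonicOnNhd g univ) (c : ℂ) (r : ℝ) :
    circleAverage g c r = g c :=
  (hg.mono (subset_univ _)).circleAverage_eq

theorem harm_cont {g : ℂ → ℝ} (hg : HarmonicOnNhd g univ) : Continuous g :=
  continuousOn_univ.mp hg.continuousOn

/-- the example -/
theorem isU_example {ρ : ℝ} (hρ : 0 < ρ) {g : ℂ → ℝ} (hg : HarmonicOnNhd g univ) (hg0 : g 0 = 0)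
    {σ : ℝ} (hσ : ∀ z, g z ≤ σ * ‖z‖ ^ ρ) :
    IsU ρ (fun z => ((g z + bump ρ z : ℝ) : EReal)) := by
  refine ⟨?_, ?_, ?_⟩
  · apply subharmonic_of_average (f := fun z => g z + bump ρ z)
      ((harm_cont hg).add (continuous_bump hρ))
    intro c r hr
    rw [circleAverage_fun_add (circleIntegrable_of_cont (harm_cont hg) c r)
      (circleIntegrable_of_cont (continuous_bump hρ) c r), harm_average hg]
    have := bump_average hρ c hr
    linarith
  · have : g 0 + bump ρ 0 = 0 := by
      unfold bump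
      rw [norm_zero, Real.zero_rpow hρ.ne', hg0]
      norm_num
    show ((g 0 + bump ρ 0 : ℝ) : EReal) = 0
    rw [this]; rfl
  · refine ⟨|σ| + 1, by positivity, fun z => ?_⟩
    apply EReal.coe_le_coe_iff.mpr
    have h1 : bump ρ z ≤ ‖z‖ ^ ρ := by
      unfold bump
      apply max_le
      · linarith
      · positivity
    have h2 : σ * ‖z‖ ^ ρ ≤ |σ| * ‖z‖ ^ ρ :=
      mul_le_mul_of_nonneg_right (le_abs_self σ) (by positivity)
    have h3 := hσ z
    linarith

theorem minimal_example {ρ : ℝ} (hρ : 0 < ρ) {g : ℂ → ℝ} (hg : HarmonicOnNhd g univ)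
    (hg0 : g 0 = 0) {σ : ℝ} (hσ : ∀ z, g z ≤ σ * ‖z‖ ^ ρ) :
    IsMinimal ρ (fun z => ((g z + bump ρ z : ℝ) : EReal)) := by
  refine ⟨isU_example hρ hg hg0 hσ, ?_⟩
  rintro ε hε ⟨w, ⟨⟨_, _, hw⟩, hw0, _⟩, hle⟩
  have h1 := hw 0 (1/2) (by norm_num) (subset_univ _) (fun z => g z - ε * (1/2 : ℝ) ^ ρ)
    ((harm_cont hg).sub continuous_const) (by
      intro z hz
      refine (hle z).trans ?_
      have hz' : ‖z‖ = 1/2 := by simpa using hz
      rw [← EReal.coe_sub]
      apply EReal.coe_le_coe_iff.mpr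
      have hb : bump ρ z = 0 := by
        unfold bump
        apply max_eq_right
        have : ‖z‖ ^ ρ ≤ 1 := Real.rpow_le_one (norm_nonneg _) (by rw [hz']; norm_num) hρ.le
        linarith
      rw [hb, hz']
      linarith)
  rw [hw0, circleAverage_fun_sub (circleIntegrable_of_cont (harm_cont hg) _ _)
    (circleIntegrable_const _ _ _), harm_average hg, hg0, circleAverage_const] at h1
  have h2 : (0:ℝ) ≤ 0 - ε * (1/2 : ℝ) ^ ρ := by exact_mod_cast h1
  have h3 : 0 < (1/2 : ℝ) ^ ρ := by positivity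
  nlinarith

theorem not_harmonic {ρ : ℝ} (hρ : 0 < ρ) {g f : ℂ → ℝ} (hg : HarmonicOnNhd g univ)
    {V : Set ℂ} (hV : IsOpen V) (hf : HarmonicOnNhd f V) (hfv : ∀ z ∈ V, f z = g z + bump ρ z)
    {z0 : ℂ} (hz0 : z0 ∈ V) (h1 : 1 < ‖z0‖) : False := by
  have hz0' : z0 ≠ 0 := by
    rintro rfl
    rw [norm_zero] at h1
    linarith
  have hW : IsOpen (V ∩ {z : ℂ | 1 < ‖z‖}) :=
    hV.inter (isOpen_lt continuous_const continuous_norm)
  obtain ⟨s, hs, hsub⟩ := Metric.isOpen_iff.mp hW z0 ⟨hz0, h1⟩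
  set r := s / 2 with hrdef
  have hr : 0 < r := by positivity
  have hball : closedBall z0 r ⊆ V ∩ {z : ℂ | 1 < ‖z‖} :=
    (closedBall_subset_ball (by rw [hrdef]; linarith)).trans hsub
  have hsph : sphere z0 r ⊆ V ∩ {z : ℂ | 1 < ‖z‖} := sphere_subset_closedBall.trans hball
  -- average of f
  have e1 : circleAverage f z0 r = f z0 := by
    apply InnerProductSpace.HarmonicOnNhd.circleAverage_eq
    rw [abs_of_pos hr]
    exact hf.mono (hball.trans inter_subset_left)
  -- f = g + ‖z‖^ρ - 1 on the sphere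
  have hbump : ∀ z : ℂ, 1 < ‖z‖ → bump ρ z = ‖z‖ ^ ρ - 1 := by
    intro z hz
    unfold bump
    apply max_eq_left
    have := Real.one_le_rpow hz.le hρ.le
    linarith
  set a : ℝ := ‖z0‖ ^ ρ - ‖z0‖ ^ ρ * ρ * Real.log ‖z0‖ with ha
  set b : ℝ := ‖z0‖ ^ ρ * ρ with hb
  -- the function F = a + b log ‖z‖ - ‖z‖^ρ has average < 0
  have hFc : ContinuousOn (fun z : ℂ => (a + b * Real.log ‖z‖) - ‖z‖ ^ ρ) (sphere z0 r) := by
    apply ContinuousOn.sub
    · apply continuousOn_const.add
      apply continuousOn_const.mul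
      intro z hz
      have : ‖z‖ ≠ 0 := by
        have h2 : 1 < ‖z‖ := (hsph hz).2
        linarith
      exact (continuous_norm.continuousAt.log this).continuousWithinAt
    · exact (continuous_pow_norm hρ).continuousOn
  have hlt : circleAverage (fun z : ℂ => (a + b * Real.log ‖z‖) - ‖z‖ ^ ρ) z0 r < 0 := by
    apply average_lt hr hFc
    · intro z hz
      have hz1 : 1 < ‖z‖ := (hsph hz).2
      have hzne : z ≠ 0 := by
        rintro rfl
        rw [norm_zero] at hz1
        linarith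
      have := support_le (ρ := ρ) hzne hz0'
      simp only [ha, hb]
      nlinarith [this]
    · -- a point on the sphere with a different modulus
      obtain ⟨z, hz, hne⟩ : ∃ z ∈ sphere z0 r, ‖z‖ ≠ ‖z0‖ := by
        refine ⟨z0 + (r / ‖z0‖ : ℝ) * z0, ?_, ?_⟩
        · rw [mem_sphere_iff_norm]
          have h2 : 0 < ‖z0‖ := by linarith
          simp only [add_sub_cancel_left, norm_mul, Complex.norm_real, Real.norm_eq_abs,
            abs_div, abs_norm, abs_of_pos hr]
          field_simp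
        · have h2 : 0 < ‖z0‖ := by linarith
          have h3 : z0 + (r / ‖z0‖ : ℝ) * z0 = ((1 + r / ‖z0‖ : ℝ) : ℂ) * z0 := by
            push_cast; ring
          rw [h3, norm_mul, Complex.norm_real, Real.norm_of_nonneg (by positivity)]
          have h4 : (1 + r / ‖z0‖) * ‖z0‖ = ‖z0‖ + r := by field_simp
          rw [h4]
          linarith
      refine ⟨z, hz, ?_⟩
      have hz1 : 1 < ‖z‖ := (hsph hz).2
      have hzne : z ≠ 0 := by
        rintro rfl
        rw [norm_zero] at hz1
        linarith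
      have := support_lt hρ hzne hz0' hne
      simp only [ha, hb]
      nlinarith [this]
  have hint1 : CircleIntegrable (fun z : ℂ => a + b * Real.log ‖z‖) z0 r := by
    have h2 : CircleIntegrable (fun z : ℂ => b * Real.log ‖z‖) z0 r :=
      (circleIntegrable_log z0 r).const_mul _
    exact (circleIntegrable_const _ z0 r).add h2
  have hint2 : CircleIntegrable (fun z : ℂ => ‖z‖ ^ ρ) z0 r :=
    circleIntegrable_of_cont (continuous_pow_norm hρ) z0 r
  rw [circleAverage_fun_sub hint1 hint2, circleAverage_affine_log] at hlt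
  have hlog := circleAverage_log_ge z0 hz0' hr
  have hbpos : 0 ≤ b := by positivity
  have hlog2 := mul_le_mul_of_nonneg_left hlog hbpos
  -- so average of ‖z‖^ρ is > ‖z0‖^ρ
  have hgt : ‖z0‖ ^ ρ < circleAverage (fun z : ℂ => ‖z‖ ^ ρ) z0 r := by
    have : a + b * Real.log ‖z0‖ = ‖z0‖ ^ ρ := by rw [ha, hb]; ring
    linarith
  have e2 : circleAverage f z0 r = circleAverage (fun z : ℂ => g z + (‖z‖ ^ ρ - 1)) z0 r := by
    apply circleAverage_congr_sphere
    intro z hz
    rw [abs_of_pos hr] at hz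
    have := hsph hz
    rw [hfv z this.1, hbump z this.2]
  rw [circleAverage_fun_add (circleIntegrable_of_cont (harm_cont hg) z0 r)
    (circleIntegrable_of_cont (f := fun z : ℂ => ‖z‖ ^ ρ - 1)
      ((continuous_pow_norm hρ).sub continuous_const) z0 r),
    harm_average hg, circleAverage_fun_sub hint2 (circleIntegrable_const 1 z0 r),
    circleAverage_const, e1, hfv z0 hz0, hbump z0 h1] at e2
  linarith

theorem harmSet_example {ρ : ℝ} (hρ : 0 < ρ) {g : ℂ → ℝ} (hg : HarmonicOnNhd g univ) :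
    HarmSet (fun z => ((g z + bump ρ z : ℝ) : EReal)) = ball 0 1 := by
  apply Subset.antisymm
  · rintro z ⟨V, ⟨hV, f, hf, hfv⟩, hz⟩
    have hfv' : ∀ z ∈ V, f z = g z + bump ρ z := by
      intro z hz
      exact (EReal.coe_eq_coe_iff.mp (hfv z hz)).symm
    by_contra hcon
    have h1 : 1 ≤ ‖z‖ := by simpa using hcon
    -- find a point in V with norm > 1
    obtain ⟨s, hs, hsub⟩ := Metric.isOpen_iff.mp hV z hz
    have hzpos : 0 < ‖z‖ := by linarith
    set z1 : ℂ := ((1 + s / 2 / ‖z‖ : ℝ) : ℂ) * z with hz1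
    have hn1 : ‖z1‖ = ‖z‖ + s / 2 := by
      rw [hz1, norm_mul, Complex.norm_real, Real.norm_of_nonneg (by positivity)]
      field_simp
    have hz1V : z1 ∈ V := by
      apply hsub
      rw [mem_ball, dist_eq_norm]
      have : z1 - z = ((s / 2 / ‖z‖ : ℝ) : ℂ) * z := by
        rw [hz1]; push_cast; ring
      rw [this, norm_mul, Complex.norm_real, Real.norm_of_nonneg (by positivity)]
      have : s / 2 / ‖z‖ * ‖z‖ = s / 2 := by field_simp
      rw [this]
      linarith
    exact not_harmonic hρ hg hV hf hfv' hz1V (by rw [hn1]; linarith)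
  · apply subset_sUnion_of_mem
    refine ⟨isOpen_ball, g, hg.mono (subset_univ _), ?_⟩
    intro z hz
    have hz' : ‖z‖ < 1 := by simpa using hz
    have : bump ρ z = 0 := by
      unfold bump
      apply max_eq_right
      have := Real.rpow_le_one (norm_nonneg z) hz'.le hρ.le
      linarith
    simp only [this, add_zero]

theorem hatH_example {ρ : ℝ} (hρ : 0 < ρ) {g : ℂ → ℝ} (hg : HarmonicOnNhd g univ) :
    HatH (fun z => ((g z + bump ρ z : ℝ) : EReal)) = {p : ℂ | p.re < 0} := by
  unfold HatH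
  rw [harmSet_example hρ hg]
  ext p
  simp [Complex.norm_exp]

theorem re_harm : HarmonicOnNhd (fun p : ℂ => p.re) univ := by
  intro z _
  have : AnalyticAt ℂ (fun p : ℂ => p) z := analyticAt_id
  exact this.harmonicAt_re

theorem regular_halfplane (q : ℂ) (hq : q.re = 0) : IsRegular {p : ℂ | p.re < 0} q := by
  refine ⟨univ, isOpen_univ, mem_univ _, fun p => ((p.re : ℝ) : EReal), ?_, ?_, ?_⟩
  · apply subharmonic_of_average Complex.continuous_re
    intro c r _
    rw [harm_average re_harm]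
  · rintro p ⟨hp, _⟩
    exact EReal.coe_neg'.mpr hp
  · have h : Continuous (fun p : ℂ => ((p.re : ℝ) : EReal)) :=
      continuous_coe_real_ereal.comp Complex.continuous_re
    have h2 := (h.tendsto q).mono_left (nhdsWithin_le_nhds (s := {p : ℂ | p.re < 0} ∩ univ))
    simpa [hq] using h2

theorem periodic_int {r : ℂ → ℝ} (h : ∀ p : ℂ, r (p + 2 * π * I) = r p) (n : ℤ) (p : ℂ) :
    r (p + n * (2 * π * I)) = r p := by
  have h2 : Function.Periodic r (2 * π * I) := h
  exact h2.int_mul n p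

theorem solution_nonpos {lam : ℝ} (hlam : 0 < lam) {r : ℂ → ℝ}
    (hr : IsSolution lam {p : ℂ | p.re < 0} r) : ∀ p : ℂ, p.re < 0 → r p ≤ 0 := by
  classical
  intro p0 hp0
  by_contra hcon
  push Not at hcon
  obtain ⟨C, hC⟩ := hr.bounded
  set U : ℂ → ℝ := fun p => if p.re < 0 then Real.exp (lam * p.re) * r p else 0 with hU
  have hopen : IsOpen {p : ℂ | p.re < 0} := isOpen_lt Complex.continuous_re continuous_const
  have hUneg : ∀ p : ℂ, p.re < 0 → U p = Real.exp (lam * p.re) * r p := by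
    intro p hp
    simp [hU, hp]
  have hUpos : ∀ p : ℂ, 0 ≤ p.re → U p = 0 := by
    intro p hp
    simp [hU, not_lt.mpr hp]
  have hper : ∀ (n : ℤ) (p : ℂ), U (p + n * (2 * π * I)) = U p := by
    intro n p
    have hre : (p + n * (2 * π * I)).re = p.re := by simp
    simp only [hU, hre]
    rw [periodic_int hr.periodic]
  have hbd : ∀ p : ℂ, p.re < 0 → U p ≤ C * Real.exp (lam * p.re) := by
    intro p hp
    rw [hUneg p hp]
    have := (le_abs_self _).trans (hC p hp)
    have h2 := Real.exp_pos (lam * p.re)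
    nlinarith
  have hcont : Continuous U := by
    rw [continuous_iff_continuousAt]
    intro p
    rcases lt_trichotomy p.re 0 with h | h | h
    · have h1 : ContinuousAt (fun p : ℂ => Real.exp (lam * p.re) * r p) p :=
        (hr.eqn.continuousOn).continuousAt (hopen.mem_nhds h)
      apply h1.congr
      filter_upwards [hopen.mem_nhds h] with x hx
      exact (hUneg x hx).symm
    · -- boundary point
      have hfr : p ∈ frontier {p : ℂ | p.re < 0} := by
        rw [Complex.frontier_setOfPred_re_lt]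
        exact h
      have ht := hr.boundary p hfr (regular_halfplane p h)
      have hval : U p = 0 := hUpos p h.ge
      rw [ContinuousAt, hval]
      have hcover : 𝓝 p = 𝓝[{p : ℂ | p.re < 0}] p ⊔ 𝓝[{p : ℂ | p.re < 0}ᶜ] p :=
        by rw [← nhdsWithin_union, union_compl_self, nhdsWithin_univ]
      rw [hcover]
      apply Tendsto.sup
      · have hE : Tendsto (fun x : ℂ => Real.exp (lam * x.re)) (𝓝[{p : ℂ | p.re < 0}] p)
            (𝓝 (Real.exp (lam * p.re))) := by
          have : Continuous (fun x : ℂ => Real.exp (lam * x.re)) := by fun_prop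
          exact (this.tendsto p).mono_left nhdsWithin_le_nhds
        have := hE.mul ht
        rw [mul_zero] at this
        apply this.congr'
        filter_upwards [self_mem_nhdsWithin] with x hx
        exact (hUneg x hx).symm
      · apply tendsto_const_nhds.congr'
        filter_upwards [self_mem_nhdsWithin] with x hx
        exact (hUpos x (not_lt.mp hx)).symm
    · have h1 : ContinuousAt (fun _ : ℂ => (0:ℝ)) p := continuousAt_const
      apply h1.congr
      filter_upwards [(isOpen_lt continuous_const Complex.continuous_re).mem_nhds h] with x hx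
      exact (hUpos x (le_of_lt hx)).symm
  -- choose R
  have hU0 : 0 < U p0 := by
    rw [hUneg p0 hp0]
    positivity
  obtain ⟨R, hR0, hR⟩ : ∃ R : ℝ, 0 < R ∧ ∀ p : ℂ, p.re < -R → U p < U p0 := by
    have h1 : Tendsto (fun x : ℝ => C * Real.exp (lam * x)) atBot (𝓝 (C * 0)) := by
      apply Tendsto.const_mul
      exact Real.tendsto_exp_atBot.comp (tendsto_id.const_mul_atBot hlam)
    rw [mul_zero] at h1
    have h2 := h1.eventually (gt_mem_nhds hU0)
    rw [eventually_atBot] at h2
    obtain ⟨x0, hx0⟩ := h2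
    refine ⟨max 1 (-x0), by positivity, fun p hp => ?_⟩
    have h3 : p.re < -1 := by
      have := le_max_left 1 (-x0)
      linarith
    have h4 : p.re ≤ x0 := by
      have := le_max_right 1 (-x0)
      linarith
    exact (hbd p (by linarith)).trans_lt (hx0 p.re h4)
  set K : Set ℂ := Icc (-R) 0 ×ℂ Icc 0 (2 * π) with hK
  have hKc : IsCompact K := isCompact_Icc.reProdIm isCompact_Icc
  -- translate into K
  have htrans : ∀ p : ℂ, -R ≤ p.re → p.re ≤ 0 → ∃ p' ∈ K, U p' = U p ∧ p'.re = p.re := by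
    intro p h1 h2
    obtain ⟨n, hn, _⟩ := existsUnique_zsmul_near_of_pos (a := 2 * π) (by positivity) p.im
    refine ⟨p + ((-n : ℤ) : ℂ) * (2 * π * I), ?_, hper _ _, by simp⟩
    rw [hK, Complex.mem_reProdIm]
    constructor
    · simp only [Complex.add_re]
      have : (((-n : ℤ) : ℂ) * (2 * π * I)).re = 0 := by simp
      rw [this, add_zero]
      exact ⟨h1, h2⟩
    · have : (p + ((-n : ℤ) : ℂ) * (2 * π * I)).im = p.im - n * (2 * π) := by
        simp
        ring
      rw [this]
      have h3 := hn.1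
      have h4 := hn.2
      simp only [zsmul_eq_mul] at h3 h4
      push_cast at h3 h4
      constructor <;> linarith
  have hp0R : -R ≤ p0.re := by
    by_contra hh
    push Not at hh
    exact lt_irrefl _ (hR p0 hh)
  obtain ⟨p0', hp0'K, hp0'U, _⟩ := htrans p0 hp0R hp0.le
  obtain ⟨p1, hp1K, hp1max⟩ := hKc.exists_isMaxOn ⟨p0', hp0'K⟩ hcont.continuousOn
  set M := U p1 with hM
  have hM0 : U p0 ≤ M := by
    rw [← hp0'U]
    exact hp1max hp0'K
  have hMall : ∀ p : ℂ, U p ≤ M := by
    intro p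
    rcases le_or_gt p.re 0 with h | h
    · rcases lt_or_ge p.re (-R) with h' | h'
      · exact (hR p h').le.trans hM0
      · obtain ⟨p', hp'K, hp'U, _⟩ := htrans p h' h
        rw [← hp'U]
        exact hp1max hp'K
    · rw [hUpos p h.le]
      linarith
  -- maximal real part
  have hSc : IsCompact (K ∩ {p | U p = M}) :=
    hKc.inter_right (isClosed_eq hcont continuous_const)
  obtain ⟨p2, ⟨hp2K, hp2M⟩, hp2max⟩ := hSc.exists_isMaxOn ⟨p1, hp1K, rfl⟩
    Complex.continuous_re.continuousOn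
  have hp2M' : U p2 = M := hp2M
  have hp2re : p2.re < 0 := by
    by_contra hh
    push Not at hh
    have := hUpos p2 hh
    linarith
  set s : ℝ := -p2.re / 2 with hs
  have hspos : 0 < s := by rw [hs]; linarith
  have hsub : closedBall p2 s ⊆ {p : ℂ | p.re < 0} := by
    intro z hz
    rw [mem_closedBall, dist_eq_norm] at hz
    have h1 : |(z - p2).re| ≤ ‖z - p2‖ := Complex.abs_re_le_norm _
    rw [Complex.sub_re] at h1
    have h2 := le_abs_self (z.re - p2.re)
    show z.re < 0
    rw [hs] at hz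
    linarith
  have hav : circleAverage (fun p : ℂ => Real.exp (lam * p.re) * r p) p2 s
      = Real.exp (lam * p2.re) * r p2 := by
    apply InnerProductSpace.HarmonicOnNhd.circleAverage_eq (f := fun p : ℂ => Real.exp (lam * p.re) * r p)
    rw [abs_of_pos hspos]
    exact hr.eqn.mono hsub
  have hav2 : circleAverage U p2 s = M := by
    rw [← hp2M', hUneg p2 hp2re, ← hav]
    apply circleAverage_congr_sphere
    intro z hz
    rw [abs_of_pos hspos] at hz
    exact hUneg z (hsub (sphere_subset_closedBall hz))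
  have hlt : circleAverage U p2 s < M := by
    apply average_lt hspos hcont.continuousOn (fun z _ => hMall z)
    refine ⟨p2 + (s : ℂ), by simp [abs_of_pos hspos], ?_⟩
    apply lt_of_le_of_ne (hMall _)
    intro heq
    have hmemK : p2 + (s : ℂ) ∈ K := by
      rw [hK, Complex.mem_reProdIm] at hp2K ⊢
      constructor
      · simp only [Complex.add_re, Complex.ofReal_re]
        constructor
        · linarith [hp2K.1.1]
        · rw [hs]; linarith
      · simpa using hp2K.2
    have := hp2max ⟨hmemK, heq⟩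
    simp only [mem_ofPred_eq, Complex.add_re, Complex.ofReal_re] at this
    linarith
  linarith

theorem solution_neg {lam : ℝ} {D : Set ℂ} {r : ℂ → ℝ} (hr : IsSolution lam D r) :
    IsSolution lam D (fun p => - r p) := by
  refine ⟨fun p => by rw [hr.periodic], ?_, ?_, ?_⟩
  · obtain ⟨C, hC⟩ := hr.bounded
    exact ⟨C, fun p hp => by rw [abs_neg]; exact hC p hp⟩
  · have := hr.eqn.neg
    have e : (fun p : ℂ => Real.exp (lam * p.re) * - r p)
        = -(fun p : ℂ => Real.exp (lam * p.re) * r p) := by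
      ext p
      simp
    rw [e]
    exact this
  · intro q hq hreg
    have := (hr.boundary q hq hreg).neg
    simpa using this

theorem lambda_example {ρ : ℝ} (hρ : 0 < ρ) {g : ℂ → ℝ} (hg : HarmonicOnNhd g univ) :
    lambdaFun (fun z => ((g z + bump ρ z : ℝ) : EReal)) = ⊤ := by
  unfold lambdaFun lambdaSet
  rw [hatH_example hρ hg]
  rw [sInf_eq_top]
  rintro l ⟨lam, hlam, _, r, hr, p, hp, hne⟩
  exfalso
  apply hne
  have h1 := solution_nonpos hlam hr p hp
  have h2 := solution_nonpos hlam (solution_neg hr) p hp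
  linarith

end Pool.Agent.H784777
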